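import Pool.Agent.Q289.AC.Stm

/-! Project AC of helper289: job CUTISO. -/

set_option autoImplicit false

open Q289.AC

namespace Pool.Agent.Q79.AC

section iso

variable {V W : Type} {X : SimpleGraph V} {Y : SimpleGraph W}

theorem bs_map (φ : X ≃g Y) (v u : V) (r : ℕ) (h : u ∈ bs X v r) : φ u ∈ bs Y (φ v) r := by
  obtain ⟨p, hp⟩ := h
  exact ⟨p.map φ.toHom, by rw [SimpleGraph.Walk.length_map]; exact hp⟩

theorem av_map (φ : X ≃g Y) (A : Set V) (v u : V) (h : Av X A v u) : Av Y (φ '' A) (φ v) (φ u) := by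
  have hm : ∀ w : V, w ∉ A → φ w ∉ φ '' A := by
    rintro w hw ⟨w', hw', he⟩
    exact hw (φ.injective he ▸ hw')
  obtain ⟨h0, h⟩ := h
  refine ⟨hm v h0, ?_⟩
  induction h with
  | refl => exact .refl
  | tail _ h2 ih => exact ih.tail ⟨φ.map_adj_iff.2 h2.1, hm _ h2.2⟩

theorem cuts_iso (φ : X ≃g Y) (v : V) (r m c : ℕ) (h : Cuts X v r m c) : Cuts Y (φ v) r m c := by
  obtain ⟨A, h1, h2, h3, h4⟩ := h
  refine ⟨fun j => φ '' A j, fun j => ⟨(h1 j).1.image _, ?_⟩, ?_, ?_, ?_⟩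
  · rw [Set.ncard_image_of_injective _ φ.injective]
    exact (h1 j).2
  · rintro j _ ⟨u, hu, rfl⟩
    exact bs_map φ v u r (h2 j hu)
  · rintro i j hij _ ⟨a, ha, rfl⟩ _ ⟨b, hb, rfl⟩
    obtain ⟨h5, h6⟩ := h3 i j hij a ha b hb
    exact ⟨fun h => h5 (φ.injective h), fun h => h6 (φ.map_adj_iff.1 h)⟩
  · intro j u hu
    have h5 := av_map φ.symm (φ '' A j) (φ v) u hu
    have e : φ.symm '' (φ '' A j) = A j := by
      rw [← Set.image_comp]
      have : (φ.symm ∘ φ : V → V) = id := by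
        funext z
        exact φ.symm_apply_apply z
      rw [this, Set.image_id]
    rw [e, φ.symm_apply_apply] at h5
    have h6 := bs_map φ v _ r (h4 j _ h5)
    rwa [φ.apply_symm_apply] at h6

end iso

section ind

variable {V : Type} (X : SimpleGraph V) (v : V) (r : ℕ)

theorem walk_induce {B : Set V} {a b : V} (p : X.Walk a b) (ha : a ∈ B) (hb : b ∈ B)
    (h : ∀ z ∈ p.support, z ∈ B) : ∃ q : (X.induce B).Walk ⟨a, ha⟩ ⟨b, hb⟩, q.length = p.length := by
  induction p with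
  | nil => exact ⟨SimpleGraph.Walk.nil, rfl⟩
  | cons hadj p ih =>
    rename_i a b c
    have hb' : b ∈ B := h b (by simp)
    obtain ⟨q, hq⟩ := ih hb' hb fun z hz => h z (by simp [hz])
    exact ⟨SimpleGraph.Walk.cons (show (X.induce B).Adj ⟨a, ha⟩ ⟨b, hb'⟩ from hadj) q, by simp [hq]⟩

theorem walk_of_induce {B : Set V} {a b : B} (p : (X.induce B).Walk a b) :
    ∃ q : X.Walk a.1 b.1, q.length = p.length := by
  induction p with
  | nil => exact ⟨SimpleGraph.Walk.nil, rfl⟩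
  | cons hadj p ih =>
    rename_i a b c
    obtain ⟨q, hq⟩ := ih
    have h1 : X.Adj a.1 b.1 := hadj
    exact ⟨SimpleGraph.Walk.cons h1 q, by rw [SimpleGraph.Walk.length_cons, SimpleGraph.Walk.length_cons, hq]⟩

/-- balls of the induced graph -/
theorem mem_bs_induce (s : ℕ) (hs : s ≤ r + 1) (u : V) :
    u ∈ bs X v s ↔ ∃ h : u ∈ bs X v (r + 1),
      (⟨u, h⟩ : bs X v (r + 1)) ∈ bs (X.induce (bs X v (r + 1))) ⟨v, self_mem_bs X v (r + 1)⟩ s := by
  classical
  constructor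
  · rintro ⟨p, hp⟩
    have hall : ∀ z ∈ p.support, z ∈ bs X v (r + 1) := by
      intro z hz
      refine ⟨p.takeUntil z hz, ?_⟩
      have := p.length_takeUntil_le_length hz
      omega
    obtain ⟨q, hq⟩ := walk_induce X p (self_mem_bs X v (r + 1)) ⟨p, by omega⟩ hall
    exact ⟨⟨p, by omega⟩, q, by omega⟩
  · rintro ⟨h, p, hp⟩
    obtain ⟨q, hq⟩ := walk_of_induce X p
    exact ⟨q, by omega⟩

theorem cuts_induce (m c : ℕ) : Cuts X v r m c ↔
    Cuts (X.induce (bs X v (r + 1))) ⟨v, self_mem_bs X v (r + 1)⟩ r m c := by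
  classical
  constructor
  · rintro ⟨A, h1, h2, h3, h4⟩
    refine ⟨fun j => Subtype.val ⁻¹' A j, fun j => ⟨(h1 j).1.preimage Subtype.val_injective.injOn, ?_⟩,
      ?_, ?_, ?_⟩
    · refine le_trans ?_ (h1 j).2
      rw [← Set.ncard_image_of_injective _ Subtype.val_injective]
      exact Set.ncard_le_ncard (Set.image_preimage_subset _ _) (h1 j).1
    · rintro j ⟨u, hu⟩ huA
      obtain ⟨h, h'⟩ := (mem_bs_induce X v r r (by omega) u).1 (h2 j huA)
      exact h'
    · intro i j hij a ha b hb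
      obtain ⟨h5, h6⟩ := h3 i j hij a.1 ha b.1 hb
      exact ⟨fun h => h5 (congrArg Subtype.val h), fun h => h6 h⟩
    · intro j u hu
      have h5 : Av X (A j) v u.1 := by
        obtain ⟨h0, h⟩ := hu
        refine ⟨h0, ?_⟩
        induction h with
        | refl => exact .refl
        | tail _ h6 ih => exact ih.tail ⟨h6.1, h6.2⟩
      obtain ⟨h, h'⟩ := (mem_bs_induce X v r r (by omega) u.1).1 (h4 j u.1 h5)
      exact h'
  · rintro ⟨A, h1, h2, h3, h4⟩
    refine ⟨fun j => Subtype.val '' A j, fun j => ⟨(h1 j).1.image _, ?_⟩, ?_, ?_, ?_⟩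
    · rw [Set.ncard_image_of_injective _ Subtype.val_injective]
      exact (h1 j).2
    · rintro j _ ⟨u, hu, rfl⟩
      exact (mem_bs_induce X v r r (by omega) u.1).2 ⟨u.2, h2 j hu⟩
    · rintro i j hij _ ⟨a, ha, rfl⟩ _ ⟨b, hb, rfl⟩
      obtain ⟨h5, h6⟩ := h3 i j hij a ha b hb
      exact ⟨fun h => h5 (Subtype.ext h), fun h => h6 h⟩
    · intro j u hu
      have hm : ∀ w : bs X v (r + 1), w.1 ∉ Subtype.val '' A j → w ∉ A j := fun w hw hwA => hw ⟨w, hwA, rfl⟩
      have h5 : ∃ h : u ∈ bs X v (r + 1), Av (X.induce (bs X v (r + 1))) (A j)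
          ⟨v, self_mem_bs X v (r + 1)⟩ ⟨u, h⟩ := by
        obtain ⟨h0, h⟩ := hu
        induction h with
        | refl => exact ⟨self_mem_bs X v (r + 1), hm ⟨v, self_mem_bs X v (r + 1)⟩ h0, .refl⟩
        | tail h7 h6 ih =>
          rename_i b c
          clear h7
          obtain ⟨hb, hav⟩ := ih
          have hb2 : b ∈ bs X v r := (mem_bs_induce X v r r (by omega) b).2 ⟨hb, h4 j _ hav⟩
          have hc : c ∈ bs X v (r + 1) := by
            obtain ⟨p, hp⟩ := hb2
            exact ⟨p.concat h6.1, by rw [SimpleGraph.Walk.length_concat]; omega⟩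
          exact ⟨hc, hav.tail (show (X.induce (bs X v (r + 1))).Adj ⟨b, hb⟩ ⟨c, hc⟩ from h6.1)
            (hm ⟨c, hc⟩ h6.2)⟩
      obtain ⟨h, hav⟩ := h5
      exact (mem_bs_induce X v r r (by omega) u).2 ⟨h, h4 j _ hav⟩

end ind

theorem cutIso : S_CutIso := by
  intro V X v r m c N F f ⟨φ, hφ⟩
  rw [cuts_induce X v r m c]
  constructor
  · intro h
    have := cuts_iso φ _ r m c h
    rwa [hφ] at this
  · intro h
    have h1 := cuts_iso φ.symm f r m c h
    rwa [← hφ, φ.symm_apply_apply] at h1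

end Pool.Agent.Q79.AC
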