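import Pool.Agent.Q79.AC.Rule

/-! Project AC of helper289: jobs TWO and INS. -/

set_option autoImplicit false

open Q289.AC

namespace Pool.Agent.Q79.AC

section
variable {Γ : Type} [Group Γ] {S : Finset Γ}

/-- an infinite class has deep elements -/
theorem deep (hS : Gen S) {A : Set Γ} (hA : A.Infinite) (D : ℕ) : ∃ w ∈ A, D < len S w := by
  by_contra hcon
  push Not at hcon
  exact hA ((finite_ball hS D).subset fun g hg => hcon g hg)

theorem two_aux (hd : S_Deg) : S_Two := by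
  intro Γ _ S hS R ⟨t', ht1, ht2⟩ D₀ s t
  obtain ⟨D, hD⟩ : ∃ D, D = max D₀ (2 * R) := ⟨_, rfl⟩
  suffices h : ∃ w : Γ, D < len S w ∧ ¬ Av (cay S) (Bl S R 1) w s ∧ ¬ Av (cay S) (Bl S R 1) w⁻¹ t by
    obtain ⟨w, h1, h2, h3⟩ := h
    exact ⟨w, by omega, h2, h3⟩
  by_contra hcon
  push Not at hcon
  -- the classes do not meet
  have hdis : ∀ i j, ∀ x : Γ, Av (cay S) (Bl S R 1) (t' i) x → Av (cay S) (Bl S R 1) (t' j) x → i = j := by
    intro i j x h1 h2
    by_contra hij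
    exact ht2 i j hij (h1.trans h2.symm)
  by_cases hst : Av (cay S) (Bl S R 1) s t
  · -- two classes without `s`
    obtain ⟨i, j, hij, hi, hj⟩ : ∃ i j : Fin 3, i ≠ j ∧ ¬ Av (cay S) (Bl S R 1) (t' i) s ∧
        ¬ Av (cay S) (Bl S R 1) (t' j) s := by
      by_cases h0 : Av (cay S) (Bl S R 1) (t' 0) s
      · exact ⟨1, 2, by decide, fun h => absurd (hdis _ _ _ h0 h) (by decide),
          fun h => absurd (hdis _ _ _ h0 h) (by decide)⟩
      · by_cases h1 : Av (cay S) (Bl S R 1) (t' 1) s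
        · exact ⟨0, 2, by decide, h0, fun h => absurd (hdis _ _ _ h1 h) (by decide)⟩
        · exact ⟨0, 1, by decide, h0, h1⟩
    obtain ⟨x, hx1, hx2⟩ := deep hS (ht1 i) D
    obtain ⟨y, hy1, hy2⟩ := deep hS (ht1 j) D
    have hx1' : Av (cay S) (Bl S R 1) (t' i) x := hx1
    have hy1' : Av (cay S) (Bl S R 1) (t' j) y := hy1
    refine hd Γ S hS R D s x y (by omega) hx2 hy2 (fun h => hi (hx1'.trans h)) (fun h => hj (hy1'.trans h))
      (fun h => hij (hdis i j y (hx1'.trans h) hy1')) ?_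
    intro w hw
    by_cases h : Av (cay S) (Bl S R 1) w s
    · exact Or.inl h
    · exact Or.inr ((hcon w hw h).trans hst.symm)
  · -- a class without `s` and `t`
    obtain ⟨i, hi, hj⟩ : ∃ i : Fin 3, ¬ Av (cay S) (Bl S R 1) (t' i) s ∧
        ¬ Av (cay S) (Bl S R 1) (t' i) t := by
      by_contra hc
      push Not at hc
      by_cases h0 : Av (cay S) (Bl S R 1) (t' 0) s
      · have h1 : ¬ Av (cay S) (Bl S R 1) (t' 1) s := fun h => absurd (hdis _ _ _ h0 h) (by decide)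
        have h2 : ¬ Av (cay S) (Bl S R 1) (t' 2) s := fun h => absurd (hdis _ _ _ h0 h) (by decide)
        exact absurd (hdis _ _ _ (hc 1 h1) (hc 2 h2)) (by decide)
      · have h0t := hc 0 h0
        by_cases h1 : Av (cay S) (Bl S R 1) (t' 1) s
        · have h2 : ¬ Av (cay S) (Bl S R 1) (t' 2) s := fun h => absurd (hdis _ _ _ h1 h) (by decide)
          exact absurd (hdis _ _ _ h0t (hc 2 h2)) (by decide)
        · exact absurd (hdis _ _ _ h0t (hc 1 h1)) (by decide)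
    obtain ⟨w, hw1, hw2⟩ := deep hS (ht1 i) D
    have hw1' : Av (cay S) (Bl S R 1) (t' i) w := hw1
    have h1 : ¬ Av (cay S) (Bl S R 1) w s := fun h => hi (hw1'.trans h)
    have h2 : ¬ Av (cay S) (Bl S R 1) w t := fun h => hj (hw1'.trans h)
    have h3 := hcon w hw2 h1
    have h4 : Av (cay S) (Bl S R 1) w⁻¹ s := by
      by_contra h5
      have h6 := hcon w⁻¹ (by rw [len_inv]; exact hw2) h5
      rw [inv_inv] at h6
      exact h2 h6
    exact hst (h4.symm.trans h3)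

/-- representatives of the classes -/
theorem rep (hS : Gen S) (R : ℕ) (s : Γ) : ∃ s' : Γ, len S s' ≤ R + 1 ∧
    ∀ w : Γ, Av (cay S) (Bl S R 1) w s → Av (cay S) (Bl S R 1) w s' := by
  by_cases h : R < len S s
  · obtain ⟨x, y, hxy, hx, hy⟩ := exists_split hS s (R + 1) h
    refine ⟨x, hx.le, fun w hw => hw.trans (av_geo hS R ?_ (by omega)).symm⟩
    have e : x⁻¹ * s = y := by rw [hxy]; group
    rw [e]
    omega
  · refine ⟨1, by rw [len_one]; omega, fun w hw => ?_⟩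
    have := hw.right
    rw [mem_Bl_one] at this
    omega

theorem ins_aux (ht : S_Two) : S_Ins := by
  classical
  intro Γ _ S hS R h3
  choose r hr1 hr2 using fun s : Γ => rep hS R s
  choose W hW1 hW2 hW3 using fun s t : Γ => ht Γ S hS R h3 (2 * R) s t
  obtain ⟨Y, hY⟩ : ∃ Y : Finset Γ, Y = (finite_ball hS (R + 1)).toFinset := ⟨_, rfl⟩
  refine ⟨(Y ×ˢ Y).image (fun p => W p.1 p.2), fun a b => W (r a⁻¹) (r b), fun a b => ⟨?_, ?_⟩⟩
  · rw [Finset.mem_image]
    refine ⟨(r a⁻¹, r b), ?_, rfl⟩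
    rw [Finset.mem_product, hY]
    simp only [Set.Finite.mem_toFinset, Set.mem_ofPred_eq]
    exact ⟨hr1 _, hr1 _⟩
  · obtain ⟨w, hw⟩ : ∃ w, w = W (r a⁻¹) (r b) := ⟨_, rfl⟩
    have h1 : ¬ Av (cay S) (Bl S R 1) w a⁻¹ := fun h => hW2 (r a⁻¹) (r b) (by rw [← hw]; exact hr2 _ _ h)
    have h2 : ¬ Av (cay S) (Bl S R 1) w⁻¹ b := fun h => hW3 (r a⁻¹) (r b) (by rw [← hw]; exact hr2 _ _ h)
    have h4 : Av (cay S) (Bl S R 1) w (w * b) := (rule_aux hS R w b h2).2 (by rw [hw]; exact hW1 _ _)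
    have h5 : ¬ Av (cay S) (Bl S R 1) a⁻¹ (w * b) := fun h => h1 (h4.trans h.symm)
    simp only
    rw [← hw]
    intro h
    apply h5
    have h6 := (av_mul (S := S) R a 1 a⁻¹ (w * b)).1
    apply h6
    have e1 : a * a⁻¹ = 1 := by group
    have e2 : a * (w * b) = a * w * b := by group
    rw [mul_one, e1, e2]
    exact h

theorem ins (_hr : S_Rule) (ht : S_Two) : S_Ins := ins_aux ht

theorem two (_hr : S_Rule) (hd : S_Deg) : S_Two := two_aux hd

end

end Pool.Agent.Q79.AC
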