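import Pool.Agent.Q79.AC.Rule

/-! Project AC of helper289: jobs MULT and GROW. -/

set_option autoImplicit false

open Q289.AC

namespace Pool.Agent.Q79.AC

section
variable {Γ : Type} [Group Γ] {S : Finset Γ}

/-- the length is bounded on a finite set -/
theorem bdd_len (F : Finset Γ) : ∃ c : ℕ, ∀ f ∈ F, len S f ≤ c :=
  ⟨F.sup (len S), fun _ hf => Finset.le_sup (f := len S) hf⟩

theorem mult : S_Mult := by
  classical
  intro Γ _ S hS R F w hw
  obtain ⟨c, hc⟩ := bdd_len (S := S) F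
  obtain ⟨K, hK⟩ : ∃ K : Finset Γ, K = (finite_ball hS R).toFinset := ⟨_, rfl⟩
  have hKm : ∀ g, g ∈ K ↔ len S g ≤ R := by
    intro g
    rw [hK]
    simp
  refine ⟨(2 * (c + R) + 1) * (K.card * F.card), fun β u => ?_⟩
  obtain ⟨p, hp⟩ := (reach hS 1 u).exists_walk_length_eq_dist
  have hp' : p.length = len S u := hp
  obtain ⟨T, hT⟩ : ∃ T : Finset (ℕ × Γ × Γ), T = Finset.Icc (β - (c + R)) (β + (c + R)) ×ˢ (K ×ˢ F) :=
    ⟨_, rfl⟩
  obtain ⟨φ, hφ⟩ : ∃ φ : ℕ × Γ × Γ → Γ × Γ, φ = fun q =>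
      (p.getVert (len S u - q.1) * q.2.1⁻¹, (p.getVert (len S u - q.1) * q.2.1⁻¹ * q.2.2)⁻¹ * u) := ⟨_, rfl⟩
  have hsub : {p : Γ × Γ | len S p.2 = β ∧ p.1 * w p.1 p.2 * p.2 = u} ⊆ (T.image φ : Set (Γ × Γ)) := by
    rintro ⟨x, y⟩ ⟨h1, h2⟩
    simp only at h1 h2
    obtain ⟨hwF, hsep⟩ := hw x y
    rw [h2] at hsep
    -- a vertex of the walk in the ball
    obtain ⟨z, hz1, hz2⟩ : ∃ z ∈ p.support, z ∈ Bl S R x := by
      by_contra hcon
      push Not at hcon
      exact hsep (av_of_walk p hcon)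
    obtain ⟨k, hk1, hk2⟩ := (SimpleGraph.Walk.mem_support_iff_exists_getVert).1 hz1
    have hz3 : len S (x⁻¹ * z) ≤ R := hz2
    have hlz : len S z ≤ k := by
      have : (cay S).dist 1 (p.getVert k) ≤ (p.take k).length := SimpleGraph.dist_le (p.take k)
      rw [SimpleGraph.Walk.take_length, hk1] at this
      unfold len
      omega
    have hlu : len S (z⁻¹ * u) ≤ len S u - k := by
      rw [← dist_eq]
      have : (cay S).dist (p.getVert k) u ≤ (p.drop k).length := SimpleGraph.dist_le (p.drop k)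
      rw [SimpleGraph.Walk.drop_length, hk1] at this
      omega
    have htri : len S u ≤ len S z + len S (z⁻¹ * u) := by
      have := len_mul_le hS z (z⁻¹ * u)
      simpa using this
    obtain ⟨j, hj⟩ : ∃ j, j = len S (z⁻¹ * u) := ⟨_, rfl⟩
    have hkj : k = len S u - j := by omega
    -- the window
    have e1 : x⁻¹ * u = w x y * y := by rw [← h2]; group
    have h3 : len S (x⁻¹ * u) ≤ c + β := by
      rw [e1]
      have := len_mul_le hS (w x y) y
      have := hc _ hwF
      omega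
    have h4 : β ≤ c + len S (x⁻¹ * u) := by
      rw [e1]
      have := len_mul_le hS (w x y)⁻¹ (w x y * y)
      rw [inv_mul_cancel_left, len_inv, h1] at this
      have := hc _ hwF
      omega
    have h5 := len_tri hS x z u
    have h6 := len_tri hS z x u
    rw [len_comm z x] at h6
    have hjw : j ∈ Finset.Icc (β - (c + R)) (β + (c + R)) := by
      rw [Finset.mem_Icc]
      omega
    rw [Finset.mem_coe, Finset.mem_image]
    refine ⟨(j, x⁻¹ * z, w x y), ?_, ?_⟩
    · rw [hT, Finset.mem_product, Finset.mem_product]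
      exact ⟨hjw, (hKm _).2 hz3, hwF⟩
    · rw [hφ]
      simp only
      rw [← hkj, hk1]
      have e2 : z * (x⁻¹ * z)⁻¹ = x := by group
      rw [e2]
      have e3 : (x * w x y)⁻¹ * u = y := by rw [← h2]; group
      rw [e3]
  refine ⟨(T.image φ).finite_toSet.subset hsub, ?_⟩
  have h1 := Set.ncard_le_ncard hsub (T.image φ).finite_toSet
  rw [Set.ncard_coe_finset] at h1
  refine h1.trans (Finset.card_image_le.trans ?_)
  rw [hT, Finset.card_product, Finset.card_product, Nat.card_Icc]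
  exact Nat.mul_le_mul_right _ (by omega)

theorem grow (hi : S_Ins) (hu : S_Unb) (hm : S_Mult) : S_Grow := by
  classical
  intro Γ _ S hS R h3 ε hε
  obtain ⟨F, w, hw⟩ := hi Γ S hS R h3
  obtain ⟨C, hC⟩ := hm Γ S hS R F w hw
  obtain ⟨c, hc⟩ := bdd_len (S := S) F
  obtain ⟨β, hβ⟩ := hu Γ S hS R h3 (⌈(C : ℝ) / ε⌉₊ + 1)
  refine ⟨β + c, fun n => ?_⟩
  obtain ⟨A, hA⟩ : ∃ A : Finset Γ, A = (finite_ball hS n).toFinset := ⟨_, rfl⟩
  have hAm : ∀ g, g ∈ A ↔ len S g ≤ n := by
    intro g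
    rw [hA]
    simp
  have hfin : {g : Γ | len S g = β}.Finite := (finite_ball hS β).subset fun g hg => le_of_eq hg
  obtain ⟨B, hB⟩ : ∃ B : Finset Γ, B = hfin.toFinset := ⟨_, rfl⟩
  have hBm : ∀ g, g ∈ B ↔ len S g = β := by
    intro g
    rw [hB]
    simp
  obtain ⟨D, hD⟩ : ∃ D : Finset Γ, D = (finite_ball hS (n + (β + c))).toFinset := ⟨_, rfl⟩
  have hDm : ∀ g, g ∈ D ↔ len S g ≤ n + (β + c) := by
    intro g
    rw [hD]
    simp
  have cA : Set.ncard {g : Γ | len S g ≤ n} = A.card := by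
    rw [hA, Set.ncard_eq_toFinset_card _ (finite_ball hS n)]
  have cD : Set.ncard {g : Γ | len S g ≤ n + (β + c)} = D.card := by
    rw [hD, Set.ncard_eq_toFinset_card _ (finite_ball hS (n + (β + c)))]
  have cB : Set.ncard {g : Γ | len S g = β} = B.card := by
    rw [hB, Set.ncard_eq_toFinset_card _ hfin]
  rw [cA, cD]
  rw [cB] at hβ
  have h1 : (A ×ˢ B).card ≤ C * D.card := by
    have h2 : (A ×ˢ B).card ≤ C * ((A ×ˢ B).image (fun p => p.1 * w p.1 p.2 * p.2)).card := by
      refine Finset.card_le_mul_card_image (A ×ˢ B) C fun u _ => ?_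
      obtain ⟨h4, h5⟩ := hC β u
      refine le_trans ?_ h5
      rw [← Set.ncard_coe_finset]
      refine Set.ncard_le_ncard ?_ h4
      intro p hp
      rw [Finset.mem_coe, Finset.mem_filter, Finset.mem_product] at hp
      exact ⟨(hBm _).1 hp.1.2, hp.2⟩
    refine h2.trans (Nat.mul_le_mul_left C (Finset.card_le_card ?_))
    intro g hg
    rw [Finset.mem_image] at hg
    obtain ⟨⟨x, y⟩, hxy, rfl⟩ := hg
    rw [Finset.mem_product] at hxy
    obtain ⟨hx, hy⟩ := hxy
    simp only at hx hy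
    rw [hAm] at hx
    rw [hBm] at hy
    rw [hDm]
    have e1 := len_mul_le hS (x * w x y) y
    have e2 := len_mul_le hS x (w x y)
    have e3 := hc _ (hw x y).1
    simp only
    omega
  rw [Finset.card_product] at h1
  have h2 : (A.card : ℝ) * B.card ≤ C * D.card := by exact_mod_cast h1
  have h3 : (C : ℝ) / ε ≤ B.card := by
    have h4 := Nat.le_ceil ((C : ℝ) / ε)
    have h5 : ((⌈(C : ℝ) / ε⌉₊ + 1 : ℕ) : ℝ) ≤ B.card := by exact_mod_cast hβ
    push_cast at h5
    linarith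
  have hBp : (0 : ℝ) < B.card := by
    have : 0 < B.card := by omega
    exact_mod_cast this
  rw [div_le_iff₀ hε] at h3
  have h6 : (A.card : ℝ) * B.card ≤ (ε * D.card) * B.card := by
    refine h2.trans ?_
    have : (0 : ℝ) ≤ D.card := Nat.cast_nonneg _
    nlinarith
  exact le_of_mul_le_mul_right h6 hBp

end

end Pool.Agent.Q79.AC
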