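import Pool.Agent.Q289.AC.Stm

/-! Project AC of helper289: jobs RULE and END. -/

set_option autoImplicit false

open Q289.AC

namespace Pool.Agent.Q79.AC

section
variable {Γ : Type} [Group Γ] {S : Finset Γ}

/-- a point on a geodesic from `x` to `v`, where `|v| = |x| + |x⁻¹ v|`, is at least as long as `x` -/
theorem len_le_of_geo (hS : Gen S) {x v z : Γ} (h1 : len S v = len S x + len S (x⁻¹ * v))
    (h2 : len S (x⁻¹ * z) + len S (z⁻¹ * v) = len S (x⁻¹ * v)) : len S x ≤ len S z := by
  have h3 : len S v ≤ len S z + len S (z⁻¹ * v) := by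
    have := len_mul_le hS z (z⁻¹ * v)
    simpa using this
  omega

/-- the geodesic from the point `x` of a geodesic from `1` to `v` to `v` avoids the ball -/
theorem av_geo (hS : Gen S) (R : ℕ) {x v : Γ} (h1 : len S v = len S x + len S (x⁻¹ * v)) (hx : R < len S x) :
    Av (cay S) (Bl S R 1) x v := by
  refine av_of_geo hS fun z hz hzB => ?_
  rw [mem_Bl_one] at hzB
  have := len_le_of_geo hS h1 hz
  omega

theorem rule_aux (hS : Gen S) (R : ℕ) (w v : Γ) (h : ¬ Av (cay S) (Bl S R 1) w⁻¹ v) :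
    (len S w + len S v ≤ len S (w * v) + 2 * R) ∧
    (2 * R < len S w → Av (cay S) (Bl S R 1) w (w * v)) := by
  constructor
  · obtain ⟨z, hz, hz2⟩ := exists_of_not_av hS h
    rw [mem_Bl_one] at hz
    rw [inv_inv] at hz2
    have h1 : len S w ≤ len S (w * z) + len S z := by
      have := len_mul_le hS (w * z) z⁻¹
      rw [len_inv] at this
      simpa using this
    have h2 : len S v ≤ len S z + len S (z⁻¹ * v) := by
      have := len_mul_le hS z (z⁻¹ * v)
      simpa using this
    omega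
  · intro hw
    refine av_of_geo hS fun z' hz' hB => ?_
    obtain ⟨z, rfl⟩ : ∃ z, z' = w * z := ⟨w⁻¹ * z', by group⟩
    rw [mem_Bl_one] at hB
    have e1 : w⁻¹ * (w * z) = z := by group
    have e2 : (w * z)⁻¹ * (w * v) = z⁻¹ * v := by group
    have e3 : w⁻¹ * (w * v) = v := by group
    rw [e1, e2, e3] at hz'
    -- `z` is joined with `w⁻¹`
    have h1 : Av (cay S) (Bl S R 1) w⁻¹ z := by
      refine av_of_geo hS fun y hy hyB => ?_
      rw [mem_Bl_one] at hyB
      rw [inv_inv] at hy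
      have h2 : len S w ≤ len S (w * y) + len S y := by
        have := len_mul_le hS (w * y) y⁻¹
        rw [len_inv] at this
        simpa using this
      omega
    have h2 : R < len S z := by
      have := h1.right
      rw [mem_Bl_one] at this
      omega
    exact h (h1.trans (av_geo hS R hz'.symm h2))

theorem rule : S_Rule := fun _ _ _ hS R w v h => rule_aux hS R w v h

/-- avoiding paths give reachability in the induced graph -/
theorem reach_of_av {V : Type} {X : SimpleGraph V} {K : Set V} {u v : V} (h : Av X K u v) (hu : u ∈ Kᶜ)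
    (hv : v ∈ Kᶜ) : (X.induce Kᶜ).Reachable ⟨u, hu⟩ ⟨v, hv⟩ := by
  obtain ⟨h0, h⟩ := h
  induction h with
  | refl => exact SimpleGraph.Reachable.refl _
  | tail h1 h2 ih =>
    rename_i b c
    have hb : b ∈ Kᶜ := Av.right ⟨h0, h1⟩
    refine (ih hb).trans (SimpleGraph.Adj.reachable ?_)
    exact h2.1

theorem endr : S_End := by
  intro Γ _ S hS ⟨K, hK, C, hC, hinf⟩
  obtain ⟨R, hR⟩ := (hK.image (len S)).bddAbove
  have hKR : K ⊆ Bl S R 1 := by
    intro g hg
    rw [mem_Bl_one]
    exact hR ⟨g, hg, rfl⟩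
  refine ⟨R, ?_⟩
  have key : ∀ i, ∃ t : Γ, {v | Av (cay S) (Bl S R 1) t v}.Infinite ∧
      ∃ (v : Γ) (hv : v ∈ Kᶜ), Av (cay S) (Bl S R 1) t v ∧ (⟨v, hv⟩ : (Kᶜ : Set Γ)) ∈ (C i).supp := by
    intro i
    have h1 : (Subtype.val '' (C i).supp \ Bl S R 1).Infinite :=
      ((hinf i).image Subtype.val_injective.injOn).sdiff (finite_Bl hS R 1)
    have h2 : Subtype.val '' (C i).supp \ Bl S R 1 ⊆
        ⋃ x ∈ {x : Γ | len S x ≤ R + 1}, ((Subtype.val '' (C i).supp \ Bl S R 1) ∩
          {v | Av (cay S) (Bl S R 1) x v}) := by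
      intro v hv
      have hvR : R < len S v := by
        have := hv.2
        rw [mem_Bl_one] at this
        omega
      obtain ⟨x, y, hxy, hx, hy⟩ := exists_split hS v (R + 1) hvR
      rw [Set.mem_iUnion₂]
      refine ⟨x, hx.le, hv, ?_⟩
      refine av_geo hS R ?_ (by omega)
      have e : x⁻¹ * v = y := by rw [hxy]; group
      rw [e]
      omega
    have h3 : ∃ x : Γ, ((Subtype.val '' (C i).supp \ Bl S R 1) ∩
        {v | Av (cay S) (Bl S R 1) x v}).Infinite := by
      by_contra hcon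
      push Not at hcon
      exact h1 (((finite_ball hS (R + 1)).biUnion fun x _ => hcon x).subset h2)
    obtain ⟨x, hx⟩ := h3
    refine ⟨x, hx.mono Set.inter_subset_right, ?_⟩
    obtain ⟨v, ⟨⟨⟨v', hv'⟩, hvC, rfl⟩, -⟩, hv2⟩ := hx.nonempty
    exact ⟨v', hv', hv2, hvC⟩
  choose t ht1 ht2 using key
  refine ⟨t, ht1, fun i j hij hav => ?_⟩
  obtain ⟨v, hv, hvt, hvC⟩ := ht2 i
  obtain ⟨u, hu, hut, huC⟩ := ht2 j
  have h1 : Av (cay S) K v u := ((hvt.symm.trans hav).trans hut).mono hKR
  have h2 := reach_of_av h1 hv hu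
  rw [SimpleGraph.ConnectedComponent.mem_supp_iff] at hvC huC
  apply hij
  apply hC
  rw [← hvC, ← huC]
  exact SimpleGraph.ConnectedComponent.sound h2

end

end Pool.Agent.Q79.AC
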