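import Pool.Agent.Q79.AC.Ins

/-! Project AC of helper289: job UNB. -/

set_option autoImplicit false

open Q289.AC

namespace Pool.Agent.Q79.AC

section
variable {Γ : Type} [Group Γ] {S : Finset Γ}

/-- elements with prescribed classes of `w` and `w⁻¹` -/
theorem two_sided (ht : S_Two) (hS : Gen S) {R : ℕ} (h3 : Three S R) {p q : Γ}
    (hp : {v | Av (cay S) (Bl S R 1) p v}.Infinite) (hq : {v | Av (cay S) (Bl S R 1) q v}.Infinite) (D : ℕ) :
    ∃ w : Γ, D < len S w ∧ Av (cay S) (Bl S R 1) p w ∧ Av (cay S) (Bl S R 1) q w⁻¹ := by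
  obtain ⟨a, ha1, ha2⟩ := deep hS hp (D + 2 * R)
  obtain ⟨c, hc1, hc2⟩ := deep hS hq (D + 2 * R)
  have ha1' : Av (cay S) (Bl S R 1) p a := ha1
  have hc1' : Av (cay S) (Bl S R 1) q c := hc1
  obtain ⟨b, rfl⟩ : ∃ b, c = b⁻¹ := ⟨c⁻¹, by group⟩
  rw [len_inv] at hc2
  by_cases h : Av (cay S) (Bl S R 1) a⁻¹ b
  · obtain ⟨m, hm1, hm2, hm3⟩ := ht Γ S hS R h3 (2 * R) a⁻¹ b
    obtain ⟨r1, r2⟩ := rule_aux hS R m b hm3
    have r2' := r2 hm1
    have h4 : ¬ Av (cay S) (Bl S R 1) a⁻¹ (m * b) := fun h' => hm2 (r2'.trans h'.symm)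
    obtain ⟨r3, r4⟩ := rule_aux hS R a (m * b) h4
    have r4' := r4 (by omega)
    have h5 : ¬ Av (cay S) (Bl S R 1) (m⁻¹)⁻¹ a⁻¹ := by rw [inv_inv]; exact hm2
    obtain ⟨-, r6⟩ := rule_aux hS R m⁻¹ a⁻¹ h5
    have r6' := r6 (by rw [len_inv]; omega)
    have h6 : ¬ Av (cay S) (Bl S R 1) (b⁻¹)⁻¹ (m⁻¹ * a⁻¹) := by
      rw [inv_inv]
      exact fun h' => hm3 (r6'.trans h'.symm)
    obtain ⟨-, r8⟩ := rule_aux hS R b⁻¹ (m⁻¹ * a⁻¹) h6
    have r8' := r8 (by rw [len_inv]; omega)
    refine ⟨a * (m * b), by omega, ha1'.trans r4', ?_⟩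
    have e : (a * (m * b))⁻¹ = b⁻¹ * (m⁻¹ * a⁻¹) := by group
    rw [e]
    exact hc1'.trans r8'
  · obtain ⟨r1, r2⟩ := rule_aux hS R a b h
    have r2' := r2 (by omega)
    have h5 : ¬ Av (cay S) (Bl S R 1) (b⁻¹)⁻¹ a⁻¹ := by
      rw [inv_inv]
      exact fun h' => h h'.symm
    obtain ⟨-, r6⟩ := rule_aux hS R b⁻¹ a⁻¹ h5
    have r6' := r6 (by rw [len_inv]; omega)
    refine ⟨a * b, by omega, ha1'.trans r2', ?_⟩
    rw [mul_inv_rev]
    exact hc1'.trans r6'

/-- words -/
def ev (x y : Γ) : List Bool → Γ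
  | [] => 1
  | true :: l => x * ev x y l
  | false :: l => y * ev x y l

theorem len_ev (hS : Gen S) (x y : Γ) (l : List Bool) :
    len S (ev x y l) ≤ max (len S x) (len S y) * l.length := by
  induction l with
  | nil => simp [ev, len_one]
  | cons a l ih =>
    rw [List.length_cons, mul_add, mul_one]
    cases a
    · have := len_mul_le hS y (ev x y l)
      have h1 := le_max_right (len S x) (len S y)
      simp only [ev]
      omega
    · have := len_mul_le hS x (ev x y l)
      have h1 := le_max_left (len S x) (len S y)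
      simp only [ev]
      omega

theorem ev_class (hS : Gen S) {R : ℕ} {p q s x y : Γ} (hps : ¬ Av (cay S) (Bl S R 1) p s)
    (hqs : ¬ Av (cay S) (Bl S R 1) q s)
    (hx : 2 * R < len S x) (hy : 2 * R < len S y) (hx1 : Av (cay S) (Bl S R 1) p x)
    (hx2 : Av (cay S) (Bl S R 1) s x⁻¹) (hy1 : Av (cay S) (Bl S R 1) q y)
    (hy2 : Av (cay S) (Bl S R 1) s y⁻¹) (l : List Bool) :
    (∀ l', l = true :: l' → Av (cay S) (Bl S R 1) p (ev x y l)) ∧
    (∀ l', l = false :: l' → Av (cay S) (Bl S R 1) q (ev x y l)) := by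
  induction l with
  | nil => simp
  | cons a l ih =>
    have hns : ¬ Av (cay S) (Bl S R 1) s (ev x y l) := by
      cases l with
      | nil =>
        intro h
        have := h.right
        rw [mem_Bl_one, ev, len_one] at this
        omega
      | cons b l' =>
        cases b
        · exact fun h => hqs ((ih.2 l' rfl).trans h.symm)
        · exact fun h => hps ((ih.1 l' rfl).trans h.symm)
    constructor
    · rintro l' h
      obtain ⟨rfl, rfl⟩ := List.cons.inj h
      have h1 : ¬ Av (cay S) (Bl S R 1) x⁻¹ (ev x y l) := fun h => hns (hx2.trans h)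
      exact hx1.trans ((rule_aux hS R x _ h1).2 hx)
    · rintro l' h
      obtain ⟨rfl, rfl⟩ := List.cons.inj h
      have h1 : ¬ Av (cay S) (Bl S R 1) y⁻¹ (ev x y l) := fun h => hns (hy2.trans h)
      exact hy1.trans ((rule_aux hS R y _ h1).2 hy)

theorem unb_aux (ht : S_Two) : S_Unb := by
  classical
  intro Γ _ S hS R h3 M
  obtain ⟨t, ht1, ht2⟩ := h3
  have h3 : Three S R := ⟨t, ht1, ht2⟩
  obtain ⟨x, hx, hx1, hx2⟩ := two_sided ht hS h3 (ht1 0) (ht1 2) (2 * R)
  obtain ⟨y, hy, hy1, hy2⟩ := two_sided ht hS h3 (ht1 1) (ht1 2) (2 * R)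
  have hcl := ev_class hS (ht2 0 2 (by decide)) (ht2 1 2 (by decide)) hx hy hx1 hx2 hy1 hy2
  -- different words give different elements
  have hinj : ∀ l l' : List Bool, l.length = l'.length → ev x y l = ev x y l' → l = l' := by
    intro l
    induction l with
    | nil =>
      intro l' h _
      rw [List.length_nil] at h
      exact (List.eq_nil_of_length_eq_zero h.symm).symm
    | cons a l ih =>
      intro l' h he
      cases l' with
      | nil => simp at h
      | cons b l' =>
        rw [List.length_cons, List.length_cons] at h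
        have hl : l.length = l'.length := by omega
        cases a <;> cases b
        · rw [ih l' hl (mul_left_cancel he)]
        · exfalso
          have h1 := (hcl (false :: l)).2 l rfl
          have h2 := (hcl (true :: l')).1 l' rfl
          rw [he] at h1
          exact ht2 0 1 (by decide) (h2.trans h1.symm)
        · exfalso
          have h1 := (hcl (true :: l)).1 l rfl
          have h2 := (hcl (false :: l')).2 l' rfl
          rw [he] at h1
          exact ht2 0 1 (by decide) (h1.trans h2.symm)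
        · rw [ih l' hl (mul_left_cancel he)]
  by_contra hcon
  push Not at hcon
  obtain ⟨L, hL⟩ : ∃ L, L = max (len S x) (len S y) := ⟨_, rfl⟩
  -- the balls
  have hball : ∀ N : ℕ, Set.ncard {g : Γ | len S g ≤ N} ≤ (N + 1) * M := by
    intro N
    induction N with
    | zero =>
      have h1 := hcon 0
      have e : {g : Γ | len S g ≤ 0} = {g : Γ | len S g = 0} := by
        ext g
        simp
      rw [e]
      omega
    | succ N ih =>
      have e : {g : Γ | len S g ≤ N + 1} = {g : Γ | len S g ≤ N} ∪ {g : Γ | len S g = N + 1} := by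
        ext g
        simp only [Set.mem_ofPred_eq, Set.mem_union]
        omega
      rw [e]
      have h1 := Set.ncard_union_le {g : Γ | len S g ≤ N} {g : Γ | len S g = N + 1}
      have h2 := hcon (N + 1)
      calc _ ≤ _ := h1
        _ ≤ (N + 1) * M + M := by omega
        _ = (N + 1 + 1) * M := by ring
  have hpow : ∀ n : ℕ, 2 ^ n ≤ (L * n + 1) * M := by
    intro n
    refine le_trans ?_ (hball (L * n))
    have h1 : Set.InjOn (fun v : Fin n → Bool => ev x y (List.ofFn v)) Set.univ := by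
      intro v _ v' _ h
      have := hinj (List.ofFn v) (List.ofFn v') (by simp) h
      exact List.ofFn_injective this
    have h2 : (fun v : Fin n → Bool => ev x y (List.ofFn v)) '' Set.univ ⊆ {g : Γ | len S g ≤ L * n} := by
      rintro g ⟨v, -, rfl⟩
      have := len_ev hS x y (List.ofFn v)
      rw [List.length_ofFn, ← hL] at this
      exact this
    have h3 := Set.ncard_le_ncard h2 (finite_ball hS _)
    rw [h1.ncard_image, Set.ncard_univ, Nat.card_eq_fintype_card, Fintype.card_fun,
      Fintype.card_bool, Fintype.card_fin] at h3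
    exact h3
  -- contradiction
  have hlim : ∃ n : ℕ, (L * n + 1) * M < 2 ^ n := by
    have h1 : ∀ K : ℕ, ∃ n : ℕ, 1 ≤ n ∧ K * n < 2 ^ n := by
      intro K
      refine ⟨2 * K + 1, by omega, ?_⟩
      have h2 : ∀ k : ℕ, k * (2 * k + 1) < 2 ^ (2 * k + 1) := by
        intro k
        have h3 : k < 2 ^ k := Nat.lt_two_pow_self
        have h4 : k + 1 ≤ 2 ^ k := h3
        have h5 : 2 ^ (2 * k + 1) = 2 * (2 ^ k * 2 ^ k) := by
          rw [pow_succ, two_mul k, pow_add]; ring
        rw [h5]
        have h6 : (k + 1) * (k + 1) ≤ 2 ^ k * 2 ^ k := Nat.mul_le_mul h4 h4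
        nlinarith
      exact h2 K
    obtain ⟨n, hn1, hn2⟩ := h1 ((L + 1) * M)
    refine ⟨n, lt_of_le_of_lt ?_ hn2⟩
    calc (L * n + 1) * M ≤ (L * n + n) * M := Nat.mul_le_mul_right _ (by omega)
      _ = (L + 1) * M * n := by ring
  obtain ⟨n, hn⟩ := hlim
  have := hpow n
  omega

theorem unb (_hr : S_Rule) (ht : S_Two) : S_Unb := unb_aux ht

end

end Pool.Agent.Q79.AC
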